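import Mathlib

/-!
# Residues, inertia groups
-/

set_option autoImplicit false

namespace Pool.Agent.N680.DV

open Polynomial
open scoped Pointwise

section residue

variable {k F N : Type} [Field k] [Field F] [Field N] [Algebra k F] [Algebra F N]

/-- an `ℓ`-th power in the residue field -/
lemma residue_power {ℓ : ℕ} (hℓ : 0 < ℓ) (W : ValuationSubring N)
    (hk : ∀ c : k, algebraMap F N (algebraMap k F c) ∈ W)
    (hres : ∀ z : F, algebraMap F N z ∈ W → ∃ c : k, algebraMap F N (z - algebraMap k F c) ∈ W.nonunits)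
    (h : k[X]) (t z : F) (ht : algebraMap F N t ∈ W.nonunits) (d : k) (hd : d ≠ 0)
    (heq : algebraMap k F d * z ^ ℓ = aeval t h) : ∃ c : k, d * c ^ ℓ = h.eval 0 := by
  obtain ⟨v, hv⟩ : ∃ v : Valuation F W.ValueGroup, v = W.valuation.comap (algebraMap F N) := ⟨_, rfl⟩
  have hle : ∀ z : F, algebraMap F N z ∈ W ↔ v z ≤ 1 := fun z => by
    rw [hv]
    exact (W.valuation_le_one_iff _).symm
  have hlt : ∀ z : F, algebraMap F N z ∈ W.nonunits ↔ v z < 1 := fun z => by
    rw [hv]
    exact W.mem_nonunits_iff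
  simp only [hle, hlt] at hk hres ht
  have hk0 : ∀ c : k, c ≠ 0 → v (algebraMap k F c) = 1 := by
    intro c hc
    have h1 := hk c
    have h2 := hk c⁻¹
    rw [map_inv₀, map_inv₀] at h2
    have h3 : v (algebraMap k F c) ≠ 0 := (Valuation.ne_zero_iff _).2 ((_root_.map_ne_zero _).2 hc)
    exact le_antisymm h1 ((inv_le_one₀ (zero_lt_iff.2 h3)).1 h2)
  have hpoly : ∀ q : k[X], v (aeval t q) ≤ 1 := by
    intro q
    induction q using Polynomial.induction_on' with
    | add p q hp hq =>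
      rw [map_add]
      exact (v.map_add _ _).trans (max_le hp hq)
    | monomial n a =>
      rw [aeval_monomial, map_mul, map_pow]
      exact mul_le_one' (hk a) (pow_le_one' ht.le n)
  have hz : v z ≤ 1 := by
    have h1 : v (z ^ ℓ) ≤ 1 := by
      have h2 := hpoly h
      rw [← heq, map_mul, hk0 d hd, one_mul] at h2
      exact h2
    rw [map_pow] at h1
    exact (pow_le_one_iff hℓ.ne').1 h1
  obtain ⟨c, hc⟩ := hres z hz
  refine ⟨c, ?_⟩
  by_contra hne
  have hne' : d * c ^ ℓ - h.eval 0 ≠ 0 := sub_ne_zero.2 hne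
  have h1 := hk0 _ hne'
  have hsmall : v (algebraMap k F (d * c ^ ℓ - h.eval 0)) < 1 := by
    have h2 : algebraMap k F (d * c ^ ℓ - h.eval 0) =
        t * aeval t (divX h) - algebraMap k F d * (z ^ ℓ - algebraMap k F c ^ ℓ) := by
      have h3 : aeval t h = t * aeval t (divX h) + algebraMap k F (h.eval 0) := by
        conv_lhs => rw [← X_mul_divX_add h]
        rw [map_add, map_mul, aeval_X, aeval_C, coeff_zero_eq_eval_zero]
      rw [map_sub, map_mul, map_pow, mul_sub, heq, h3]
      ring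
    rw [h2]
    refine lt_of_le_of_lt (v.map_sub _ _) (max_lt ?_ ?_)
    · rw [map_mul]
      exact mul_lt_one_of_lt_of_le ht (hpoly _)
    · rw [map_mul, hk0 d hd, one_mul]
      obtain ⟨w, hw⟩ := sub_dvd_pow_sub_pow z (algebraMap k F c) ℓ
      have h4 : z ^ ℓ - algebraMap k F c ^ ℓ = (z - algebraMap k F c) *
          ∑ i ∈ Finset.range ℓ, z ^ i * algebraMap k F c ^ (ℓ - 1 - i) := by
        rw [mul_comm, Commute.geom_sum₂_mul (Commute.all _ _)]
      rw [h4, map_mul]
      refine mul_lt_one_of_lt_of_le hc ?_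
      refine v.map_sum_le fun i _ => ?_
      rw [map_mul, map_pow, map_pow]
      exact mul_le_one' (pow_le_one' hz _) (pow_le_one' (hk c) _)
  rw [h1] at hsmall
  exact lt_irrefl _ hsmall

end residue

section inertia

variable {F Ω : Type} [Field F] [Field Ω] [Algebra F Ω]

lemma inertia_mem {W : ValuationSubring Ω} {σ : Ω ≃ₐ[F] Ω} (h1 : ∀ x, σ x ∈ W ↔ x ∈ W)
    (h2 : ∀ x ∈ W, σ x - x ∈ W.nonunits) :
    σ ∈ (W.inertiaSubgroup F).map (W.decompositionSubgroup F).subtype := by
  have hd : σ ∈ W.decompositionSubgroup F := by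
    rw [MulAction.mem_stabilizer_iff]
    ext x
    rw [ValuationSubring.mem_pointwise_smul_iff_inv_smul_mem]
    have h3 := h1 (σ⁻¹ • x)
    have h4 : σ (σ⁻¹ • x) = x := σ.apply_symm_apply x
    rw [h4] at h3
    exact h3.symm
  refine ⟨⟨σ, hd⟩, ?_, rfl⟩
  change (MulSemiringAction.toRingAut (W.decompositionSubgroup F) (IsLocalRing.ResidueField W)) ⟨σ, hd⟩ = 1
  ext r
  obtain ⟨x, rfl⟩ := IsLocalRing.residue_surjective r
  change IsLocalRing.residue W ((⟨σ, hd⟩ : W.decompositionSubgroup F) • x) = IsLocalRing.residue W x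
  rw [← sub_eq_zero, ← map_sub, IsLocalRing.residue_eq_zero_iff]
  obtain ⟨h, h5⟩ := (ValuationSubring.mem_nonunits_iff_exists_mem_maximalIdeal).1 (h2 x x.2)
  exact h5

end inertia

end Pool.Agent.N680.DV
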