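import Pool.Agent.N680.DV.Tr
import Pool.Agent.N680.DV.Res
import Pool.Agent.W620.SC.Def

/-!
# Sections for varieties which dominate a curve
-/

set_option autoImplicit false

namespace Pool.Agent.N680.DV

open Polynomial

section main

variable {k F E Ω Ω' : Type} [Field k] [Field F] [Field E] [Field Ω] [Field Ω'] [Algebra F E]
  [Algebra F Ω] [Algebra F Ω'] [Algebra E Ω'] [Algebra Ω Ω']
  [IsScalarTower F E Ω'] [IsScalarTower F Ω Ω'] [IsAlgClosure F Ω]

/-- a section over `E` gives a section over `F` -/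
theorem transfer [Algebra k Ω] [Algebra k Ω'] [IsScalarTower k Ω Ω'] (N : IntermediateField E Ω')
    (S : (algebraicClosure k Ω' ≃ₐ[k] algebraicClosure k Ω') →* (N ≃ₐ[E] N)) (hS : Continuous S)
    (hc : ∀ σ (c : algebraicClosure k Ω') (z : N), (z : Ω') = (c : Ω') → (S σ z : Ω') = (σ c : Ω')) :
    ∃ T : (algebraicClosure k Ω ≃ₐ[k] algebraicClosure k Ω) →*
        (pull (F := F) (Ω := Ω) N ≃ₐ[F] pull (F := F) (Ω := Ω) N), Continuous T ∧
      ∀ σ (c : algebraicClosure k Ω) (z : pull (F := F) (Ω := Ω) N), (z : Ω) = (c : Ω) →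
        (T σ z : Ω) = (σ c : Ω) := by
  have hcl : IsAlgClosed Ω := IsAlgClosure.isAlgClosed F
  refine ⟨(restr N).comp (S.comp (conj (clEquiv (k := k) (Ω := Ω) (Ω' := Ω')))), ?_, ?_⟩
  · exact (restr_cont N).comp (hS.comp (conj_cont _))
  · intro σ c z hz
    apply (algebraMap Ω Ω').injective
    have h1 : algebraMap Ω Ω' ((restr N (S (conj (clEquiv (Ω' := Ω')) σ)) z : pull (F := F) (Ω := Ω) N) : Ω) =
        ((S (conj (clEquiv (Ω' := Ω')) σ) (inc N z) : N) : Ω') := by
      rw [← restr_spec N (S (conj (clEquiv (Ω' := Ω')) σ)) z]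
      rfl
    have h2 := hc (conj (clEquiv (Ω' := Ω')) σ) (clEquiv (Ω' := Ω') c) (inc N z) (by
      rw [inc_val, clEquiv_val, hz])
    rw [conj_apply, clEquiv_val] at h2
    exact h1.trans h2

/-- the unramified extensions of `F` are unramified over `E` -/
theorem mem_unr [Algebra k F] [Algebra k E] [IsScalarTower k F E] (M : IntermediateField F Ω)
    (hM : ∀ U : Set (ValuationSubring F), (∀ O ∈ U, ∀ c : k, algebraMap k F c ∈ O) →
      M ≤ Pool.Agent.W620.SC.unramified F Ω U)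
    (U : Set (ValuationSubring E)) (hU : ∀ O ∈ U, ∀ c : k, algebraMap k E c ∈ O) (z : Ω) (hz : z ∈ M) :
    algebraMap Ω Ω' z ∈ Pool.Agent.W620.SC.unramified E Ω' U := by
  rw [Pool.Agent.W620.SC.mem_unramified]
  intro W' hW' τ hτ
  have hτ' : τ⁻¹ ∈ Pool.Agent.W620.SC.inertia E Ω' W' := inv_mem hτ
  have hnorm : Normal F Ω := IsAlgClosure.normal F Ω
  obtain ⟨τ₁, hτ₁⟩ : ∃ τ₁ : Ω ≃ₐ[F] Ω, ∀ x, algebraMap Ω Ω' (τ₁ x) = τ (algebraMap Ω Ω' x) :=
    ⟨(τ.restrictScalars F).restrictNormal Ω, fun x => (τ.restrictScalars F).restrictNormal_commutes Ω x⟩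
  have hiff : ∀ x, τ x ∈ W' ↔ x ∈ W' := by
    intro x
    constructor
    · intro h
      have h1 := (Pool.Agent.W620.SC.inertia_spec hτ' h).1
      have h2 : τ⁻¹ (τ x) = x := τ.symm_apply_apply x
      rwa [h2] at h1
    · exact fun h => (Pool.Agent.W620.SC.inertia_spec hτ h).1
  obtain ⟨W, hW⟩ : ∃ W : ValuationSubring Ω, W = W'.comap (algebraMap Ω Ω') := ⟨_, rfl⟩
  have hmem : ∀ x : Ω, x ∈ W ↔ algebraMap Ω Ω' x ∈ W' := fun x => by
    rw [hW]
    exact ValuationSubring.mem_comap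
  have hnon : ∀ x : Ω, algebraMap Ω Ω' x ∈ W'.nonunits → x ∈ W.nonunits := by
    intro x hx
    rw [ValuationSubring.mem_nonunits_iff_or] at hx ⊢
    rcases hx with hx | hx
    · exact Or.inl ((_root_.map_eq_zero _).1 hx)
    · refine Or.inr fun h => hx ?_
      rw [← map_inv₀]
      exact (hmem _).1 h
  have h1 : τ₁ ∈ Pool.Agent.W620.SC.inertia F Ω W := by
    refine inertia_mem (fun x => ?_) (fun x hx => ?_)
    · rw [hmem, hmem, hτ₁, hiff]
    · apply hnon
      rw [map_sub, hτ₁]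
      exact (Pool.Agent.W620.SC.inertia_spec hτ ((hmem x).1 hx)).2
  have h2 := hM {W.comap (algebraMap F Ω)} (by
    rintro O rfl c
    rw [ValuationSubring.mem_comap, hmem, ← IsScalarTower.algebraMap_apply F Ω Ω',
      IsScalarTower.algebraMap_apply F E Ω', ← IsScalarTower.algebraMap_apply k F E]
    have h3 := hU _ hW' c
    rwa [ValuationSubring.mem_comap] at h3) hz
  rw [Pool.Agent.W620.SC.mem_unramified] at h2
  rw [← hτ₁, h2 W rfl τ₁ h1]

end main

end Pool.Agent.N680.DV
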