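import Mathlib

/-!
# Restriction of sections of Galois groups to subfields
-/

set_option autoImplicit false

namespace Pool.Agent.N680.DV

open Topology

section ex

variable {F Ω Ω' : Type} [Field F] [Field Ω] [Field Ω'] [Algebra F Ω] [Algebra F Ω'] [Algebra Ω Ω']
  [IsScalarTower F Ω Ω'] [IsAlgClosure F Ω]

/-- the elements of `Ω'` which are algebraic over `F` are in the algebraic closure `Ω` of `F` -/
lemma mem_range (w : Ω') (hw : IsAlgebraic F w) : ∃ u : Ω, algebraMap Ω Ω' u = w := by
  have hcl : IsAlgClosed Ω := IsAlgClosure.isAlgClosed F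
  have h1 : IsAlgebraic Ω w := hw.tower_top Ω
  have h2 : IsIntegral Ω w := h1.isIntegral
  have h3 := IsAlgClosed.degree_eq_one_of_irreducible Ω (minpoly.irreducible h2)
  exact minpoly.mem_range_of_degree_eq_one Ω w h3

end ex

section pull

variable {F E Ω Ω' : Type} [Field F] [Field E] [Field Ω] [Field Ω'] [Algebra F E] [Algebra F Ω]
  [Algebra F Ω'] [Algebra E Ω'] [Algebra Ω Ω'] [IsScalarTower F Ω Ω'] [IsScalarTower F E Ω']

/-- `N ∩ Ω` -/
def pull (N : IntermediateField E Ω') : IntermediateField F Ω where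
  carrier := {z | algebraMap Ω Ω' z ∈ N}
  mul_mem' := fun {a b} ha hb => by
    change algebraMap Ω Ω' (a * b) ∈ N
    rw [map_mul]
    exact N.mul_mem ha hb
  add_mem' := fun {a b} ha hb => by
    change algebraMap Ω Ω' (a + b) ∈ N
    rw [map_add]
    exact N.add_mem ha hb
  algebraMap_mem' := fun r => by
    change algebraMap Ω Ω' (algebraMap F Ω r) ∈ N
    rw [← IsScalarTower.algebraMap_apply F Ω Ω', IsScalarTower.algebraMap_apply F E Ω']
    exact N.algebraMap_mem _
  inv_mem' := fun a ha => by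
    change algebraMap Ω Ω' a⁻¹ ∈ N
    rw [map_inv₀]
    exact N.inv_mem ha

/-- the inclusion `N ∩ Ω → N` -/
def inc (N : IntermediateField E Ω') : pull (F := F) (Ω := Ω) N →+* N where
  toFun z := ⟨algebraMap Ω Ω' z.1, z.2⟩
  map_one' := Subtype.ext (by simp)
  map_mul' := fun a b => Subtype.ext (by simp)
  map_zero' := Subtype.ext (by simp)
  map_add' := fun a b => Subtype.ext (by simp)

lemma inc_val (N : IntermediateField E Ω') (z : pull (F := F) (Ω := Ω) N) :
    ((inc N z : N) : Ω') = algebraMap Ω Ω' (z : Ω) := rfl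

lemma inc_base (N : IntermediateField E Ω') (r : F) :
    inc (Ω := Ω) N (algebraMap F (pull (F := F) (Ω := Ω) N) r) = algebraMap E N (algebraMap F E r) := by
  apply Subtype.ext
  change algebraMap Ω Ω' (algebraMap F Ω r) = algebraMap E Ω' (algebraMap F E r)
  rw [← IsScalarTower.algebraMap_apply F Ω Ω', IsScalarTower.algebraMap_apply F E Ω']

variable [IsAlgClosure F Ω]

lemma ex_restr (N : IntermediateField E Ω') (τ : N ≃ₐ[E] N) (z : pull (F := F) (Ω := Ω) N) :
    ∃ w : pull (F := F) (Ω := Ω) N, inc N w = τ (inc N z) := by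
  have halg : Algebra.IsAlgebraic F Ω := IsAlgClosure.isAlgebraic
  have h1 : IsAlgebraic F (z : Ω) := halg.isAlgebraic _
  obtain ⟨q, hq0, hq⟩ := h1
  have h2 : IsAlgebraic F ((τ (inc N z) : N) : Ω') := by
    refine ⟨q, hq0, ?_⟩
    have h3 : Polynomial.eval₂ ((algebraMap E N).comp (algebraMap F E)) (inc N z) q = 0 := by
      have h4 : ((algebraMap E N).comp (algebraMap F E)) = (inc (F := F) (Ω := Ω) N).comp (algebraMap F (pull (F := F) (Ω := Ω) N)) := by
        ext1 r
        exact (inc_base N r).symm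
      rw [h4, ← Polynomial.hom_eval₂]
      have h5 : Polynomial.eval₂ (algebraMap F (pull (F := F) (Ω := Ω) N)) z q = 0 := by
        apply Subtype.ext
        have h6 : (((Polynomial.eval₂ (algebraMap F (pull (F := F) (Ω := Ω) N)) z q : _) :
            pull (F := F) (Ω := Ω) N) : Ω) = Polynomial.aeval (z : Ω) q := by
          change algebraMap (pull (F := F) (Ω := Ω) N) Ω _ = _
          rw [Polynomial.hom_eval₂, Polynomial.aeval_def]
          rfl
        rw [h6, hq]
        rfl
      rw [h5, map_zero]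
    have h4 : Polynomial.eval₂ ((algebraMap E N).comp (algebraMap F E)) (τ (inc N z)) q = 0 := by
      have h5 : ((algebraMap E N).comp (algebraMap F E)) =
          ((τ : N →+* N)).comp ((algebraMap E N).comp (algebraMap F E)) := by
        ext1 r
        exact (τ.commutes _).symm
      rw [h5]
      change Polynomial.eval₂ _ ((τ : N →+* N) (inc N z)) q = 0
      rw [← Polynomial.hom_eval₂, h3, map_zero]
    rw [Polynomial.aeval_def]
    have h5 : algebraMap F Ω' = (algebraMap N Ω').comp ((algebraMap E N).comp (algebraMap F E)) := by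
      ext1 r
      change _ = algebraMap E Ω' (algebraMap F E r)
      exact IsScalarTower.algebraMap_apply F E Ω' r
    rw [h5]
    change Polynomial.eval₂ _ (algebraMap N Ω' (τ (inc N z))) q = 0
    rw [← Polynomial.hom_eval₂, h4, map_zero]
  obtain ⟨u, hu⟩ := mem_range (Ω := Ω) _ h2
  refine ⟨⟨u, ?_⟩, Subtype.ext hu⟩
  change algebraMap Ω Ω' u ∈ N
  rw [hu]
  exact (τ (inc N z)).2

/-- the restriction of `τ` to `N ∩ Ω` -/
noncomputable def rf (N : IntermediateField E Ω') (τ : N ≃ₐ[E] N) (z : pull (F := F) (Ω := Ω) N) :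
    pull (F := F) (Ω := Ω) N := Classical.choose (ex_restr N τ z)

lemma rf_spec (N : IntermediateField E Ω') (τ : N ≃ₐ[E] N) (z : pull (F := F) (Ω := Ω) N) :
    inc N (rf N τ z) = τ (inc N z) := Classical.choose_spec (ex_restr N τ z)

omit [IsAlgClosure F Ω] in
lemma inc_inj (N : IntermediateField E Ω') : Function.Injective (inc (F := F) (Ω := Ω) N) :=
  (inc N).injective

/-- the restriction to `N ∩ Ω` -/
noncomputable def restr (N : IntermediateField E Ω') :
    (N ≃ₐ[E] N) →* (pull (F := F) (Ω := Ω) N ≃ₐ[F] pull (F := F) (Ω := Ω) N) where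
  toFun τ :=
    { toFun := rf N τ
      invFun := rf N τ⁻¹
      left_inv := fun z => inc_inj N (by
        rw [rf_spec, rf_spec]
        exact τ.symm_apply_apply _)
      right_inv := fun z => inc_inj N (by
        rw [rf_spec, rf_spec]
        exact τ.apply_symm_apply _)
      map_mul' := fun a b => inc_inj N (by rw [rf_spec, map_mul, map_mul, map_mul, rf_spec, rf_spec])
      map_add' := fun a b => inc_inj N (by rw [rf_spec, map_add, map_add, map_add, rf_spec, rf_spec])
      commutes' := fun r => inc_inj N (by rw [rf_spec, inc_base, τ.commutes]) }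
  map_one' := by
    ext1 z
    exact inc_inj N (by
      change inc N (rf N 1 z) = inc N z
      rw [rf_spec]
      rfl)
  map_mul' := fun τ τ' => by
    ext1 z
    exact inc_inj N (by
      change inc N (rf N (τ * τ') z) = inc N (rf N τ (rf N τ' z))
      rw [rf_spec, rf_spec, rf_spec]
      rfl)

lemma restr_spec (N : IntermediateField E Ω') (τ : N ≃ₐ[E] N) (z : pull (F := F) (Ω := Ω) N) :
    inc N (restr N τ z) = τ (inc N z) := rf_spec N τ z

lemma restr_cont (N : IntermediateField E Ω') : Continuous (restr (F := F) (Ω := Ω) N) := by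
  have halg : Algebra.IsAlgebraic F Ω := IsAlgClosure.isAlgebraic
  apply continuous_of_continuousAt_one
  rw [ContinuousAt, map_one]
  intro U hU
  obtain ⟨L, hL, hLU⟩ := (krullTopology_mem_nhds_one_iff F _ U).1 hU
  obtain ⟨n, b⟩ : ∃ n : ℕ, Nonempty (Module.Basis (Fin n) F L) := ⟨_, ⟨Module.finBasis F L⟩⟩
  obtain ⟨b⟩ := b
  obtain ⟨T, hT⟩ : ∃ T : Set N, T = Set.range fun i => inc N (b i : pull (F := F) (Ω := Ω) N) := ⟨_, rfl⟩
  have hTf : T.Finite := by rw [hT]; exact Set.finite_range _
  have hfin : Finite T := hTf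
  have hint : ∀ x ∈ T, IsIntegral E x := by
    intro x hx
    rw [hT] at hx
    obtain ⟨i, rfl⟩ := hx
    obtain ⟨q, hq0, hq⟩ := halg.isAlgebraic ((b i : pull (F := F) (Ω := Ω) N) : Ω)
    refine IsAlgebraic.isIntegral ⟨q.map (algebraMap F E), ?_, ?_⟩
    · rwa [Ne, Polynomial.map_eq_zero]
    · apply (algebraMap N Ω').injective
      rw [map_zero, ← Polynomial.aeval_algebraMap_apply, Polynomial.aeval_map_algebraMap]
      change Polynomial.aeval (algebraMap Ω Ω' _) q = 0
      rw [Polynomial.aeval_algebraMap_apply, hq, map_zero]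
  have hfd : FiniteDimensional E (IntermediateField.adjoin E T) := IntermediateField.finiteDimensional_adjoin hint
  have hmem : ((IntermediateField.adjoin E T).fixingSubgroup : Set (N ≃ₐ[E] N)) ∈ 𝓝 1 :=
    (krullTopology_mem_nhds_one_iff E N _).2 ⟨IntermediateField.adjoin E T, hfd, Set.Subset.rfl⟩
  refine Filter.mem_map.2 (Filter.mem_of_superset hmem ?_)
  intro τ hτ
  apply hLU
  rw [SetLike.mem_coe, IntermediateField.mem_fixingSubgroup_iff] at hτ ⊢
  have h1 : ∀ i, restr N τ (b i : pull (F := F) (Ω := Ω) N) = b i := by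
    intro i
    apply inc_inj N
    rw [restr_spec]
    exact hτ _ (IntermediateField.subset_adjoin E T (by rw [hT]; exact ⟨i, rfl⟩))
  intro x hx
  have h2 := b.sum_repr ⟨x, hx⟩
  have h3 : x = ∑ i, b.repr ⟨x, hx⟩ i • (b i : pull (F := F) (Ω := Ω) N) := by
    have h4 := congrArg (fun z : L => (z : pull (F := F) (Ω := Ω) N)) h2
    simp only [AddSubmonoidClass.coe_finsetSum] at h4
    exact h4.symm
  rw [h3, map_sum]
  refine Finset.sum_congr rfl fun i _ => ?_
  rw [map_smul, h1]

end pull

section closures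

variable {k Ω Ω' : Type} [Field k] [Field Ω] [Field Ω'] [Algebra k Ω] [Algebra k Ω'] [Algebra Ω Ω']
  [IsScalarTower k Ω Ω'] [IsAlgClosed Ω]

/-- the inclusion of the algebraic closures of `k` -/
noncomputable def clHom : algebraicClosure k Ω →ₐ[k] algebraicClosure k Ω' where
  toFun c := ⟨algebraMap Ω Ω' c, mem_algebraicClosure_iff.2 (by
    have h1 : IsAlgebraic k (c : Ω) := mem_algebraicClosure_iff.1 c.2
    exact h1.algebraMap)⟩
  map_one' := Subtype.ext (by simp)
  map_mul' := fun a b => Subtype.ext (by simp)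
  map_zero' := Subtype.ext (by simp)
  map_add' := fun a b => Subtype.ext (by simp)
  commutes' := fun r => Subtype.ext (by
    change algebraMap Ω Ω' (algebraMap k Ω r) = algebraMap k Ω' r
    exact (IsScalarTower.algebraMap_apply k Ω Ω' r).symm)

lemma clHom_bij : Function.Bijective (clHom (k := k) (Ω := Ω) (Ω' := Ω')) := by
  refine ⟨(clHom (k := k) (Ω := Ω) (Ω' := Ω')).toRingHom.injective, fun w => ?_⟩
  have h1 : IsAlgebraic k (w : Ω') := mem_algebraicClosure_iff.1 w.2
  have h2 : IsIntegral Ω (w : Ω') := (h1.tower_top Ω).isIntegral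
  have h3 := IsAlgClosed.degree_eq_one_of_irreducible Ω (minpoly.irreducible h2)
  obtain ⟨u, hu⟩ := minpoly.mem_range_of_degree_eq_one Ω (w : Ω') h3
  have h4 : IsAlgebraic k u := by
    obtain ⟨q, hq0, hq⟩ := h1
    refine ⟨q, hq0, ?_⟩
    apply (algebraMap Ω Ω').injective
    rw [map_zero, ← Polynomial.aeval_algebraMap_apply, hu, hq]
  exact ⟨⟨u, mem_algebraicClosure_iff.2 h4⟩, Subtype.ext hu⟩

/-- the algebraic closures of `k` in `Ω` and in `Ω'` -/
noncomputable def clEquiv : algebraicClosure k Ω ≃ₐ[k] algebraicClosure k Ω' :=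
  AlgEquiv.ofBijective clHom clHom_bij

lemma clEquiv_val (c : algebraicClosure k Ω) :
    ((clEquiv (Ω' := Ω') c : algebraicClosure k Ω') : Ω') = algebraMap Ω Ω' (c : Ω) := rfl

end closures

section conj

variable {k K K' : Type} [Field k] [Field K] [Field K'] [Algebra k K] [Algebra k K']

/-- transport of automorphisms -/
def conj (e : K ≃ₐ[k] K') : (K ≃ₐ[k] K) →* (K' ≃ₐ[k] K') where
  toFun σ := (e.symm.trans σ).trans e
  map_one' := by
    ext1 x
    exact e.apply_symm_apply x
  map_mul' := fun σ τ => by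
    ext1 x
    change e (σ (τ (e.symm x))) = e (σ (e.symm (e (τ (e.symm x)))))
    rw [e.symm_apply_apply]

lemma conj_apply (e : K ≃ₐ[k] K') (σ : K ≃ₐ[k] K) (x : K) : conj e σ (e x) = e (σ x) := by
  change e (σ (e.symm (e x))) = _
  rw [e.symm_apply_apply]

lemma conj_cont (e : K ≃ₐ[k] K') : Continuous (conj e) := by
  apply continuous_of_continuousAt_one
  rw [ContinuousAt, map_one]
  intro U hU
  obtain ⟨L, hL, hLU⟩ := (krullTopology_mem_nhds_one_iff k K' U).1 hU
  have hfd : FiniteDimensional k (L.map (e.symm : K' →ₐ[k] K)) :=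
    (L.equivMap (e.symm : K' →ₐ[k] K)).toLinearEquiv.finiteDimensional
  have hmem : ((L.map (e.symm : K' →ₐ[k] K)).fixingSubgroup : Set (K ≃ₐ[k] K)) ∈ 𝓝 1 :=
    (krullTopology_mem_nhds_one_iff k K _).2 ⟨L.map (e.symm : K' →ₐ[k] K), hfd, Set.Subset.rfl⟩
  refine Filter.mem_map.2 (Filter.mem_of_superset hmem ?_)
  intro τ hτ
  apply hLU
  rw [SetLike.mem_coe, IntermediateField.mem_fixingSubgroup_iff] at hτ ⊢
  intro x hx
  have h1 := hτ (e.symm x) ⟨x, hx, rfl⟩
  change e (τ (e.symm x)) = x
  rw [h1, e.apply_symm_apply]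

end conj

end Pool.Agent.N680.DV
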